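import Mathlib

/-!
Formulas and derivability of the provability logic with `n` modalities.
-/

set_option autoImplicit false

namespace Pool.Agent.FS.GlpFrag

/-- Formulas with `n` boxes over a type of variables. -/
inductive Fn (n : ℕ) (α : Type) : Type
  | var : α → Fn n α
  | bot : Fn n α
  | imp : Fn n α → Fn n α → Fn n α
  | box : Fin n → Fn n α → Fn n α

/-- Substitution. -/
def Fn.subst {n : ℕ} {α β : Type} (σ : α → Fn n β) : Fn n α → Fn n β
  | .var i => σ i
  | .bot => .bot
  | .imp a b => .imp (Fn.subst σ a) (Fn.subst σ b)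
  | .box k a => .box k (Fn.subst σ a)

/-- Derivability from hypotheses, with modus ponens and necessitation. -/
inductive Dn {n : ℕ} {α : Type} (Γ : Fn n α → Prop) : Fn n α → Prop
  | hyp (a : Fn n α) : Γ a → Dn Γ a
  | k (a b : Fn n α) : Dn Γ (.imp a (.imp b a))
  | s (a b c : Fn n α) : Dn Γ (.imp (.imp a (.imp b c)) (.imp (.imp a b) (.imp a c)))
  | dne (a : Fn n α) : Dn Γ (.imp (.imp (.imp a .bot) .bot) a)
  | dist (k : Fin n) (a b : Fn n α) :
      Dn Γ (.imp (.box k (.imp a b)) (.imp (.box k a) (.box k b)))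
  | loeb (k : Fin n) (a : Fn n α) : Dn Γ (.imp (.box k (.imp (.box k a) a)) (.box k a))
  | mono (m k : Fin n) (a : Fn n α) : m ≤ k → Dn Γ (.imp (.box m a) (.box k a))
  | dia (m k : Fin n) (a : Fn n α) : m < k →
      Dn Γ (.imp (.imp (.box m (.imp a .bot)) .bot) (.box k (.imp (.box m (.imp a .bot)) .bot)))
  | mp (a b : Fn n α) : Dn Γ a → Dn Γ (.imp a b) → Dn Γ b
  | nec (k : Fin n) (a : Fn n α) : Dn Γ a → Dn Γ (.box k a)

end Pool.Agent.FS.GlpFrag
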