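import Pool.Agent.Lib.MP_d338c6_lc.Fix

/-!
The lifting lemma with control of the formulas on which exactness is used.
-/

set_option autoImplicit false

namespace Pool.Agent.FS.GlpFrag

open Pool.Agent.Lib.MP_d338c6_lc Pool.Agent.Lib.MP_d338c6_lc.Fm

variable {α β : Type}

/-- The lifting lemma, with the test formulas taken from a class `P`. -/
theorem lift_in (φ : Fm α) (σ : α → Fm β) (P : Fm α → Prop) (hbot : P bot)
    (himp : ∀ a b, P a → P b → P (imp a b))
    (hlift : ∀ ψ : Fm α, P ψ → (∃ y, Pt y ∧ y φ ∧ y (box 0 φ) ∧ y ψ) →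
      ∃ y : Fm β → Prop, Pt y ∧ y (subst σ ψ))
    (x : Fm α → Prop) (hx : Pt x) (hxφ : x (box 0 φ)) (Λ : List (ℕ × Fm α))
    (hΛ : ∀ p ∈ Λ, P p.2 ∧ ∀ k ≤ p.1, ∀ a, P a → P (box k a)) :
    ∃ x' : Fm β → Prop, Pt x' ∧ ∀ p ∈ Λ, x' (box p.1 (subst σ p.2)) ↔ x (box p.1 p.2) := by
  classical
  have hex : ∃ N, ∀ p ∈ Λ, N < p.1 → x (box p.1 p.2) := by
    refine ⟨(Λ.map Prod.fst).sum, fun p hp hlt => ?_⟩
    have := List.single_le_sum (l := Λ.map Prod.fst) (fun _ _ => Nat.zero_le _) p.1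
      (List.mem_map_of_mem hp)
    omega
  obtain ⟨N, hN, hNmin⟩ : ∃ N, (∀ p ∈ Λ, N < p.1 → x (box p.1 p.2)) ∧
      (N = 0 ∨ ∃ p ∈ Λ, p.1 = N ∧ ¬ x (box p.1 p.2)) := by
    refine ⟨Nat.find hex, Nat.find_spec hex, ?_⟩
    rcases Nat.eq_zero_or_pos (Nat.find hex) with h0 | hpos
    · exact Or.inl h0
    · right
      have := Nat.find_min hex (m := Nat.find hex - 1) (by omega)
      push Not at this
      obtain ⟨p, hp, hlt, hn⟩ := this
      refine ⟨p, hp, ?_, hn⟩
      by_contra hne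
      exact hn (Nat.find_spec hex p hp (by omega))
  let c : ℕ × Fm α → Fm α := fun p =>
    if p.1 < N then (if x (box p.1 p.2) then box p.1 p.2 else neg (box p.1 p.2))
    else if p.1 = N ∧ x (box p.1 p.2) then Fm.and p.2 (box p.1 p.2) else top
  let core : Fm α := conj (Λ.map c)
  have Pneg : ∀ a, P a → P (neg a) := fun a h => himp _ _ h hbot
  have Ptop : P top := himp _ _ hbot hbot
  have Pand : ∀ a b, P a → P b → P (Fm.and a b) := fun a b h k =>
    Pneg _ (himp _ _ h (Pneg _ k))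
  have Pconj : ∀ l : List (Fm α), (∀ a ∈ l, P a) → P (conj l) := by
    intro l
    induction l with
    | nil => exact fun _ => Ptop
    | cons a l ih =>
      exact fun h => Pand _ _ (h a List.mem_cons_self)
        (ih fun b hb => h b (List.mem_cons_of_mem _ hb))
  have Pcore : P core := Pconj _ (by
    intro a ha
    obtain ⟨p, hp, rfl⟩ := List.mem_map.1 ha
    have h1 := (hΛ p hp).1
    have h2 := (hΛ p hp).2 _ le_rfl _ h1
    simp only [c]
    split_ifs
    exacts [h2, Pneg _ h2, Pand _ _ h1 h2, Ptop])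
  have hcore : ∀ w, Pt w → R N x w → w core := by
    intro w hw hR
    have := (hw.conj_subst var (Λ.map c)).2 (by
      intro a ha
      obtain ⟨p, -, rfl⟩ := List.mem_map.1 ha
      rw [subst_var_self]
      simp only [c]
      split_ifs with h1 h2 h3
      · exact hx.box_succ h1.le hR h2
      · exact (hw.neg _).2 (fun h => h2 (hx.box_pred hw h1 hR h))
      · obtain ⟨h3, h4⟩ := h3
        rw [h3] at h4 ⊢
        exact (hw.and _ _).2 ⟨hR _ h4, hx.box_succ le_rfl hR h4⟩
      · exact hw.top)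
    rwa [subst_var_self] at this
  have hcore1 : ∀ y : Fm β → Prop, Pt y → y (subst σ core) → ∀ p ∈ Λ, p.1 < N →
      (y (box p.1 (subst σ p.2)) ↔ x (box p.1 p.2)) := by
    intro y hy h p hp hlt
    have := (hy.conj_subst σ (Λ.map c)).1 h _ (List.mem_map_of_mem hp)
    simp only [c, if_pos hlt] at this
    split_ifs at this with h2
    · exact ⟨fun _ => h2, fun _ => this⟩
    · exact ⟨fun h => ((hy.neg _).1 this h).elim, fun h => (h2 h).elim⟩
  have hcore2 : ∀ y : Fm β → Prop, Pt y → y (subst σ core) → ∀ p ∈ Λ, p.1 = N →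
      x (box p.1 p.2) → y (subst σ p.2) ∧ y (box N (subst σ p.2)) := by
    intro y hy h p hp heq hb
    have := (hy.conj_subst σ (Λ.map c)).1 h _ (List.mem_map_of_mem hp)
    simp only [c, if_neg (show ¬ p.1 < N by omega), if_pos (And.intro heq hb)] at this
    rw [← heq]
    exact (hy.and _ _).1 this
  have hφ : ∀ w, R N x w → w φ ∧ w (box 0 φ) := fun w hR =>
    ⟨hR _ (hx.mono (Nat.zero_le N) hxφ), hx.box_succ (Nat.zero_le N) hR hxφ⟩
  have hneg : ∀ p ∈ Λ, p.1 = N → ¬ x (box p.1 p.2) →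
      ∃ w, Pt w ∧ R N x w ∧ w (Fm.and core (neg p.2)) := by
    intro p _ heq hn
    obtain ⟨w, hw, hR, hwn⟩ := hx.exists_succ hn
    rw [heq] at hR
    exact ⟨w, hw, hR, (hw.and _ _).2 ⟨hcore w hw hR, (hw.neg _).2 hwn⟩⟩
  -- the final assembly, given z and Y
  have fin : ∀ (z : Fm β → Prop) (_ : Pt z) (Y : (Fm β → Prop) → Prop)
      (_ : ∀ y, Y y → Pt y ∧ y (subst σ core))
      (_ : ∀ y, Y y → ∀ k, k < N → ∀ a, y (box k a) ↔ z (box k a))
      (_ : ∀ y, Y y → ∀ k, k < N → ∀ a, y (box k a) → y a)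
      (_ : ∀ p ∈ Λ, p.1 = N → ¬ x (box p.1 p.2) → ∃ y, Y y ∧ ¬ y (subst σ p.2)),
      ∃ x' : Fm β → Prop, Pt x' ∧ ∀ p ∈ Λ, x' (box p.1 (subst σ p.2)) ↔ x (box p.1 p.2) := by
    intro z hz Y hY hlow hrefl hwit
    obtain ⟨x', hx', h1, h2, h3⟩ := exists_root N z hz Y (fun y hy => (hY y hy).1) hlow hrefl
    refine ⟨x', hx', fun p hp => ?_⟩
    rcases lt_trichotomy p.1 N with hlt | heq | hgt
    · rcases hNmin with h0 | ⟨q, hq, hqN, hqn⟩
      · omega
      · obtain ⟨y, hy, -⟩ := hwit q hq hqN hqn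
        rw [h1 _ hlt, ← hlow y hy _ hlt]
        exact hcore1 y (hY y hy).1 (hY y hy).2 p hp hlt
    · constructor
      · intro h
        by_contra hn
        obtain ⟨y, hy, hyn⟩ := hwit p hp heq hn
        rw [heq] at h
        exact hyn ((h2 _).1 h y hy).1
      · intro h
        rw [heq, h2]
        exact fun y hy => hcore2 y (hY y hy).1 (hY y hy).2 p hp heq h
    · exact ⟨fun _ => hN p hp hgt, fun _ => h3 _ hgt _⟩
  rcases Nat.eq_zero_or_pos N with h0 | hpos
  · obtain ⟨z, hz, -⟩ : ∃ z : Fm β → Prop, Pt z ∧ True := by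
      refine ⟨ev (fun _ _ => True), ⟨fun h => h, fun _ _ => Iff.rfl, ?_⟩, trivial⟩
      intro a ha
      unfold Prv at ha
      induction ha with
      | hyp a ha => exact ha.elim
      | k a b => exact fun h _ => h
      | s a b c => exact fun h1 h2 h3 => h1 h3 (h2 h3)
      | dne a => exact fun h => by_contra h
      | dist k a b => exact fun _ _ => trivial
      | loeb k a => exact fun _ => trivial
      | mono m k a hmk => exact fun _ => trivial
      | dia m k a hmk => exact fun _ => trivial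
      | mp a b _ _ iha ihb => exact ihb iha
      | nec k a ha _ => exact trivial
    refine fin z hz (fun y => Pt y ∧ y (subst σ core)) (fun y hy => hy)
      (fun y _ k hk => by omega) (fun y _ k hk => by omega) ?_
    intro p hp heq hn
    obtain ⟨w, hw, hR, hwc⟩ := hneg p hp heq hn
    obtain ⟨y, hy, hyc⟩ := hlift _ (Pand _ _ Pcore (Pneg _ (hΛ p hp).1))
      ⟨w, hw, (hφ w hR).1, (hφ w hR).2, hwc⟩
    rw [subst_and, hy.and, subst_neg, hy.neg] at hyc
    exact ⟨y, ⟨hy, hyc.1⟩, hyc.2⟩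
  · obtain ⟨M, rfl⟩ : ∃ M, N = M + 1 := ⟨N - 1, by omega⟩
    let gs : List (Fm α) :=
      (Λ.filter (fun p => decide (p.1 = M + 1 ∧ ¬ x (box p.1 p.2)))).map
        (fun p => Fm.and core (neg p.2))
    have hQ : ∀ m w, Pt w → R (M + 1) x w → w (Qf M gs m) := by
      intro m
      induction m with
      | zero => intro w hw _; exact hw.top
      | succ m ih =>
        intro w hw hR
        rw [← subst_var_self (Qf M gs (m + 1)), Qf_succ_iff hw]
        intro g hg
        obtain ⟨p, hp, rfl⟩ := List.mem_map.1 hg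
        rw [List.mem_filter, decide_eq_true_eq] at hp
        obtain ⟨u, hu, hRu, huc⟩ := hneg p hp.1 hp.2.1 hp.2.2
        refine ⟨u, hu, fun a ha => ?_, ?_, ?_⟩
        · exact hRu _ (hx.mono (Nat.le_succ M) (hx.box_pred hw (Nat.lt_succ_self M) hR ha))
        · rwa [subst_var_self]
        · rw [subst_var_self]
          exact ih u hu hRu
    obtain ⟨z, hz, hzs⟩ := exists_reflexive σ M gs (by
      intro m
      rcases hNmin with h0 | ⟨q, hq, hqN, hqn⟩
      · omega
      · obtain ⟨w, hw, hR, -⟩ := hneg q hq hqN hqn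
        refine hlift _ ?_ ⟨w, hw, (hφ w hR).1, (hφ w hR).2, hQ m w hw hR⟩
        induction m with
        | zero => exact Ptop
        | succ m ih =>
          refine Pconj _ fun a ha => ?_
          obtain ⟨g, hg, rfl⟩ := List.mem_map.1 ha
          obtain ⟨p, hp, rfl⟩ := List.mem_map.1 hg
          exact Pneg _ ((hΛ q hq).2 M (by omega) _ (Pneg _ (Pand _ _
            (Pand _ _ Pcore (Pneg _ (hΛ p (List.mem_filter.1 hp).1).1)) ih))))
    refine fin z hz (fun y => (Pt y ∧ y (subst σ core)) ∧ R M z y ∧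
      ∀ a, y (box M a) → z (box M a)) (fun y hy => hy.1) ?_ ?_ ?_
    · rintro y ⟨⟨hy, -⟩, hR, hb⟩ k hk a
      refine ⟨fun h => ?_, fun h => hz.box_succ (by omega) hR h⟩
      rcases (Nat.le_of_lt_succ hk).lt_or_eq with hlt | heq
      · exact hz.box_pred hy hlt hR h
      · subst heq
        exact hb a h
    · rintro y ⟨⟨hy, -⟩, hR, hb⟩ k hk a h
      exact hR _ (hb a (hy.mono (by omega) h))
    · intro p hp heq hn
      obtain ⟨y, hy, hR, hyc, hb⟩ := hzs (Fm.and core (neg p.2))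
        (List.mem_map.2 ⟨p, by rw [List.mem_filter, decide_eq_true_eq]; exact ⟨hp, heq, hn⟩, rfl⟩)
      rw [subst_and, hy.and, subst_neg, hy.neg] at hyc
      exact ⟨y, ⟨⟨hy, hyc.1⟩, hR, hb⟩, hyc.2⟩

end Pool.Agent.FS.GlpFrag
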