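import Pool.Agent.FS.GlpFrag.Lift
import Pool.Agent.FS.GlpFrag.Defs

/-!
Translations between the logic with `n` modalities and the full logic.
-/

set_option autoImplicit false

namespace Pool.Agent.FS.GlpFrag

open Pool.Agent.Lib.MP_d338c6_lc

variable {n : ℕ} {α β : Type}

/-- Inclusion of the small language. -/
def up : Fn n α → Fm α
  | .var i => .var i
  | .bot => .bot
  | .imp a b => .imp (up a) (up b)
  | .box k a => .box k (up a)

/-- Retraction to the small language: boxes of high level become true. -/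
def dn (n : ℕ) : Fm α → Fn n α
  | .var i => .var i
  | .bot => .bot
  | .imp a b => .imp (dn n a) (dn n b)
  | .box k a => if h : k < n then .box ⟨k, h⟩ (dn n a) else .imp .bot .bot

theorem dn_imp (a b : Fm α) : dn n (.imp a b) = .imp (dn n a) (dn n b) := rfl

theorem dn_bot : dn n (.bot : Fm α) = .bot := rfl

theorem dn_lo {k : ℕ} (h : k < n) (a : Fm α) : dn n (.box k a) = .box ⟨k, h⟩ (dn n a) :=
  dif_pos h

theorem dn_hi {k : ℕ} (h : ¬ k < n) (a : Fm α) : dn n (.box k a) = .imp .bot .bot :=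
  dif_neg h

theorem dn_up (a : Fn n α) : dn n (up a) = a := by
  induction a with
  | var i => rfl
  | bot => rfl
  | imp a b iha ihb =>
    show dn n (.imp (up a) (up b)) = _
    rw [dn_imp, iha, ihb]
  | box k a ih =>
    show dn n (.box k (up a)) = _
    rw [dn_lo k.2, ih]

theorem up_subst (σ : α → Fn n β) (a : Fn n α) :
    up (a.subst σ) = Fm.subst (fun i => up (σ i)) (up a) := by
  induction a with
  | var i => rfl
  | bot => rfl
  | imp a b iha ihb =>
    show Fm.imp (up (a.subst σ)) (up (b.subst σ)) = _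
    rw [iha, ihb]
    rfl
  | box k a ih =>
    show Fm.box k (up (a.subst σ)) = _
    rw [ih]
    rfl

theorem dn_subst (τ : α → Fm β) (a : Fn n α) :
    dn n (Fm.subst τ (up a)) = a.subst fun i => dn n (τ i) := by
  induction a with
  | var i => rfl
  | bot => rfl
  | imp a b iha ihb =>
    show dn n (.imp (Fm.subst τ (up a)) (Fm.subst τ (up b))) = _
    rw [dn_imp, iha, ihb]
    rfl
  | box k a ih =>
    show dn n (.box k (Fm.subst τ (up a))) = _
    rw [dn_lo k.2, ih]
    rfl

theorem dn_top {Γ : Fn n α → Prop} : Dn Γ (.imp .bot .bot) :=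
  Dn.mp _ _ (Dn.k .bot .bot) (Dn.mp _ _ (Dn.k .bot (.imp .bot .bot)) (Dn.s _ (.imp .bot .bot) _))

theorem dn_weak {Γ : Fn n α → Prop} (a : Fn n α) : Dn Γ (.imp a (.imp .bot .bot)) :=
  Dn.mp _ _ dn_top (Dn.k _ _)

theorem der_up {Γ : Fn n α → Prop} {Δ : Fm α → Prop} (h : ∀ a, Γ a → Δ (up a)) {a : Fn n α}
    (ha : Dn Γ a) : Der Δ (up a) := by
  induction ha with
  | hyp a ha => exact Der.hyp _ (h a ha)
  | k a b => exact Der.k _ _
  | s a b c => exact Der.s _ _ _
  | dne a => exact Der.dne _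
  | dist k a b => exact Der.dist _ _ _
  | loeb k a => exact Der.loeb _ _
  | mono m k a hmk => exact Der.mono _ _ _ hmk
  | dia m k a hmk => exact Der.dia _ _ _ hmk
  | mp a b _ _ iha ihb => exact Der.mp _ _ iha ihb
  | nec k a _ ih => exact Der.nec _ _ ih

theorem der_dn {Γ : Fn n α → Prop} {Δ : Fm α → Prop} (h : ∀ a, Δ a → Γ (dn n a)) {a : Fm α}
    (ha : Der Δ a) : Dn Γ (dn n a) := by
  induction ha with
  | hyp a ha => exact Dn.hyp _ (h a ha)
  | k a b => exact Dn.k _ _
  | s a b c => exact Dn.s _ _ _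
  | dne a => exact Dn.dne _
  | dist k a b =>
    by_cases hk : k < n
    · rw [dn_imp, dn_imp, dn_lo hk, dn_lo hk, dn_lo hk]
      exact Dn.dist _ _ _
    · rw [dn_imp, dn_imp, dn_hi hk, dn_hi hk, dn_hi hk]
      exact Dn.k _ _
  | loeb k a =>
    by_cases hk : k < n
    · rw [dn_imp, dn_lo hk, dn_imp, dn_lo hk]
      exact Dn.loeb _ _
    · rw [dn_imp, dn_hi hk a]
      exact dn_weak _
  | mono m k a hmk =>
    by_cases hk : k < n
    · rw [dn_imp, dn_lo hk, dn_lo (hmk.trans_lt hk)]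
      exact Dn.mono _ _ _ hmk
    · rw [dn_imp, dn_hi hk a]
      exact dn_weak _
  | dia m k a hmk =>
    by_cases hk : k < n
    · rw [dn_imp, dn_lo hk, dn_imp, dn_lo (hmk.trans hk)]
      exact Dn.dia _ _ _ hmk
    · rw [dn_imp, dn_hi hk]
      exact dn_weak _
  | mp a b _ _ iha ihb => exact Dn.mp _ _ iha ihb
  | nec k a _ ih =>
    by_cases hk : k < n
    · rw [dn_lo hk]
      exact Dn.nec _ _ ih
    · rw [dn_hi hk]
      exact dn_top

theorem boxes_up (a : Fn n α) : ∀ p ∈ boxes (up a), p.1 < n ∧ ∃ b : Fn n α, up b = p.2 := by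
  induction a with
  | var i => exact fun p hp => absurd hp List.not_mem_nil
  | bot => exact fun p hp => absurd hp List.not_mem_nil
  | imp a b iha ihb => exact fun p hp => (List.mem_append.1 hp).elim (iha p) (ihb p)
  | box k a ih =>
    intro p hp
    rcases List.mem_cons.1 hp with rfl | hp
    · exact ⟨k.2, a, rfl⟩
    · exact ih p hp

theorem exact_proj [Finite α] (φ : Fn n α) (σ : α → Fn n β)
    (hφ : Dn (fun _ => False) (φ.subst σ))
    (hex : ∀ ψ : Fn n α, Dn (fun _ => False) (ψ.subst σ) → Dn (fun a => a = φ) ψ) :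
    ∃ τ : α → Fn n α, Dn (fun _ => False) (φ.subst τ) ∧ ∀ i,
      Dn (fun a => a = φ) (.imp (.var i) (τ i)) ∧ Dn (fun a => a = φ) (.imp (τ i) (.var i)) := by
  have hφ' : Prv (Fm.subst (fun i => up (σ i)) (up φ)) := by
    rw [← up_subst]
    exact der_up (fun _ h => h) hφ
  obtain ⟨τ, h1, h2⟩ := projective_of_ext (up φ) (by
    intro x hx hxφ
    obtain ⟨x', hx', h⟩ := lift_in (up φ) (fun i => up (σ i)) (fun a => ∃ b : Fn n α, up b = a)
      ⟨.bot, rfl⟩ (by
        rintro _ _ ⟨a, rfl⟩ ⟨b, rfl⟩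
        exact ⟨.imp a b, rfl⟩) (by
        rintro _ ⟨ψ, rfl⟩ ⟨y, hy, h1, h2, h3⟩
        by_contra hn
        push Not at hn
        have h4 : Prv (Fm.subst (fun i => up (σ i)) (up (.imp ψ .bot))) :=
          complete (fun v hv => (hv.neg _).2 (hn v hv))
        have h5 := der_dn (n := n) (Γ := fun _ => False) (fun _ h => h) h4
        rw [← up_subst, dn_up] at h5
        have h6 : Der (fun a => a = up φ) (up (.imp ψ .bot)) :=
          der_up (fun a h => by rw [h]) (hex _ h5)
        exact (hy.neg _).1 (h6.sem y hy h1 h2) h3) x hx hxφ (boxes (up φ)) (by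
        intro p hp
        obtain ⟨h1, h2⟩ := boxes_up φ p hp
        refine ⟨h2, ?_⟩
        rintro k hk _ ⟨a, rfl⟩
        exact ⟨.box ⟨k, hk.trans_lt h1⟩ a, rfl⟩)
    refine ⟨fun i => x' (up (σ i)), ?_⟩
    exact (pe_congr (up φ) (fun _ => Iff.rfl) h).1
      ((subst_iff hx' (fun i => up (σ i)) (up φ)).1 (hx'.thm _ hφ')))
  have hd : ∀ a, a = up φ → dn n a = φ := fun a h => by rw [h, dn_up]
  refine ⟨fun i => dn n (τ i), ?_, fun i => ⟨?_, ?_⟩⟩
  · rw [← dn_subst]
    exact der_dn (fun _ h => h) h1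
  · exact der_dn (a := .imp (.var i) (τ i)) hd
      (Der.of_sem fun v hv a b => (hv.imp _ _).2 (h2 v hv a b i).2)
  · exact der_dn (a := .imp (τ i) (.var i)) hd
      (Der.of_sem fun v hv a b => (hv.imp _ _).2 (h2 v hv a b i).1)

end Pool.Agent.FS.GlpFrag
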